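import Pool.Agent.Helper58.DH.Goals

/-!
# Packet DH-Q_PHI (MP_06d934_gt): inequalities for `ph x y z = (z² - x² - y²)/(x y)`.
-/

set_option autoImplicit false

namespace Pool.Agent.Helper87.DH

open Pool.Agent.Helper58.DH Pool.Agent.Helper58.DG

theorem sum3 {x y z : ℝ} (hx : 0 < x) (hy : 0 < y) (hz : 0 < z) :
    ph y z x + ph x z y + ph x y z =
      -2 - (x + y - z) * (x + z - y) * (y + z - x) / (x * y * z) := by
  unfold ph
  field_simp
  ring

theorem schur_ord {x y z : ℝ} (hx : 0 < x) (h1 : x ≤ y) (h2 : y ≤ z) :
    (x + y - z) * (x + z - y) * (y + z - x) ≤ x * y * z := by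
  have hy : 0 < y := hx.trans_le h1
  have hz : 0 < z := hy.trans_le h2
  have a1 : 0 ≤ x * (y - x) * (z - x) :=
    mul_nonneg (mul_nonneg hx.le (by linarith)) (by linarith)
  have a2 : 0 ≤ (z - y) * (z * (z - x) - y * (y - x)) := by
    apply mul_nonneg (by linarith)
    have : y * (y - x) ≤ z * (z - x) := mul_le_mul h2 (by linarith) (by linarith) hz.le
    linarith
  linarith [show x * y * z - (x + y - z) * (x + z - y) * (y + z - x) =
    x * (y - x) * (z - x) + (z - y) * (z * (z - x) - y * (y - x)) by ring]

theorem schur {x y z : ℝ} (hx : 0 < x) (hy : 0 < y) (hz : 0 < z) :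
    (x + y - z) * (x + z - y) * (y + z - x) ≤ x * y * z := by
  rcases le_total x y with h1 | h1
  · rcases le_total y z with h2 | h2
    · exact schur_ord hx h1 h2
    · rcases le_total x z with h3 | h3
      · have := schur_ord hx h3 h2
        linarith
      · have := schur_ord hz h3 h1
        linarith
  · rcases le_total x z with h2 | h2
    · have := schur_ord hy h1 h2
      linarith
    · rcases le_total y z with h3 | h3
      · have := schur_ord hy h3 h2
        linarith
      · have := schur_ord hz h3 h1
        linarith

theorem q_phi : Q_PHI := by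
  refine ⟨?_, ?_, ?_, ?_, ?_⟩
  · intro x y z hx hxy hxz
    have hy : 0 < y := hx.trans_le hxy
    have hz : 0 < z := hx.trans_le hxz
    unfold ph
    apply div_nonpos_of_nonpos_of_nonneg
    · nlinarith
    · positivity
  · intro x y z hx hxy hyz
    have hy : 0 < y := hx.trans_le hxy
    have hz : 0 < z := hy.trans_le hyz
    have e : ph y z x + ph x z y =
        -((x + y) * (z - y + x) * (z + y - x) / (x * y * z)) := by
      unfold ph
      field_simp
      ring
    rw [e, neg_le_neg_iff, div_le_div_iff₀ hx (by positivity)]
    have h1 : (z - y) * (y * z) ≤ (x + y) * (z - y + x) * (z + y - x) := by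
      have a1 : y * (z - y) ≤ (x + y) * (z - y + x) :=
        mul_le_mul (by linarith) (by linarith) (by linarith) (by linarith)
      have a2 : y * (z - y) * z ≤ (x + y) * (z - y + x) * (z + y - x) :=
        mul_le_mul a1 (by linarith) hz.le (by
          have : 0 ≤ z - y + x := by linarith
          positivity)
      linarith
    nlinarith [mul_le_mul_of_nonneg_left h1 hx.le]
  · intro x y z C hx hxy hyz hC hzC
    have hy : 0 < y := hx.trans_le hxy
    have hz : 0 < z := hy.trans_le hyz
    rw [sum3 hx hy hz]
    have hxyz : 0 < x * y * z := by positivity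
    rcases le_total z (x + y) with h | h
    · have : 0 ≤ (x + y - z) * (x + z - y) * (y + z - x) / (x * y * z) := by
        have b1 : 0 ≤ x + y - z := by linarith
        have b2 : 0 ≤ x + z - y := by linarith
        have b3 : 0 ≤ y + z - x := by linarith
        positivity
      nlinarith [sq_nonneg C]
    · have h1 : -(2 * (C ^ 2 - 1)) ≤
          (x + y - z) * (x + z - y) * (y + z - x) / (x * y * z) := by
        rw [le_div_iff₀ hxyz]
        have a1 : z - x - y ≤ (C - 1) * x := by linarith
        have a2 : x + z - y ≤ (C + 1) * x := by linarith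
        have a3 : y + z - x ≤ 2 * z := by linarith
        have c1 : (z - x - y) * (x + z - y) ≤ (C - 1) * x * ((C + 1) * x) :=
          mul_le_mul a1 a2 (by linarith) (mul_nonneg (by linarith) hx.le)
        have c2 : (z - x - y) * (x + z - y) * (y + z - x) ≤
            (C - 1) * x * ((C + 1) * x) * (2 * z) :=
          mul_le_mul c1 a3 (by linarith) (by
            have : 0 ≤ C - 1 := by linarith
            positivity)
        have c3 : (C - 1) * x * ((C + 1) * x) * (2 * z) ≤ 2 * (C ^ 2 - 1) * (x * y * z) := by
          have : (C - 1) * x * ((C + 1) * x) * (2 * z) = 2 * (C ^ 2 - 1) * (x * z) * x := by ring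
          rw [this]
          have : 2 * (C ^ 2 - 1) * (x * y * z) = 2 * (C ^ 2 - 1) * (x * z) * y := by ring
          rw [this]
          apply mul_le_mul_of_nonneg_left hxy
          have : 0 ≤ C ^ 2 - 1 := by nlinarith
          positivity
        nlinarith
      nlinarith
  · intro x y z hx hy hz
    rw [sum3 hx hy hz]
    have h := schur hx hy hz
    have hxyz : 0 < x * y * z := by positivity
    have : (x + y - z) * (x + z - y) * (y + z - x) / (x * y * z) ≤ 1 := by
      rw [div_le_one hxyz]
      exact h
    linarith
  · intro x y z C L hx hyz hC hzC hL hLx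
    have hL0 : 0 < L := by linarith
    have hLxp : 0 < L * x := by positivity
    have hy : 0 < y := hLxp.trans_le hLx
    have hz : 0 < z := hy.trans_le hyz
    have e : ph y z x = -2 + (x ^ 2 - (z - y) ^ 2) / (y * z) := by
      unfold ph
      field_simp
      ring
    rw [e]
    have h1 : -(C ^ 2 / L ^ 2) ≤ (x ^ 2 - (z - y) ^ 2) / (y * z) := by
      rw [le_div_iff₀ (by positivity), neg_mul, div_mul_eq_mul_div, neg_le_iff_add_nonneg']
      have hzy : (z - y) ^ 2 ≤ C ^ 2 * x ^ 2 := by
        rw [← mul_pow]
        apply pow_le_pow_left₀ (by linarith)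
        linarith
      have hyz' : L ^ 2 * x ^ 2 ≤ y * z := by
        have : L * x * (L * x) ≤ y * z := mul_le_mul hLx (hLx.trans hyz) hLxp.le hy.le
        nlinarith
      have h2 : C ^ 2 * x ^ 2 ≤ C ^ 2 * (y * z) / L ^ 2 := by
        rw [le_div_iff₀ (by positivity)]
        nlinarith [mul_le_mul_of_nonneg_left hyz' (sq_nonneg C)]
      nlinarith [sq_nonneg x]
    linarith

end Pool.Agent.Helper87.DH
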